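import Pool.Agent.N848.OL.Stm

/-!
# Project OL (helper848), GAL: Galois theory of a square of fields (helper111)
-/

set_option autoImplicit false

open Module

namespace Pool.Agent.N111.OL

/-- every element of the composite is in the span over `F'` of a basis of `K / F` -/
theorem span_comp {F F' K K' : Type} [Field F] [Field F'] [Field K] [Field K']
    [Algebra F F'] [Algebra F K] [Algebra F K'] [Algebra F' K'] [Algebra K K']
    [IsScalarTower F F' K'] [IsScalarTower F K K'] [FiniteDimensional K K']
    (h : IntermediateField.adjoin K (Set.range (algebraMap F' K')) = ⊤)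
    {ι : Type} [Fintype ι] (bas : Basis ι F K) :
    ⊤ ≤ Submodule.span F' (Set.range fun i => algebraMap K K' (bas i)) := by
  have c1 : ∀ x : F, algebraMap F' K' (algebraMap F F' x) = algebraMap F K' x := fun x =>
    (IsScalarTower.algebraMap_apply F F' K' x).symm
  have c2 : ∀ x : F, algebraMap K K' (algebraMap F K x) = algebraMap F K' x := fun x =>
    (IsScalarTower.algebraMap_apply F K K' x).symm
  have hK : ∀ a : K, algebraMap K K' a ∈
      Submodule.span F' (Set.range fun i => algebraMap K K' (bas i)) := by
    intro a
    rw [← bas.sum_repr a, map_sum]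
    refine Submodule.sum_mem _ fun i _ => ?_
    have h3 : algebraMap K K' (bas.repr a i • bas i) =
        (algebraMap F F' (bas.repr a i)) • algebraMap K K' (bas i) := by
      rw [Algebra.smul_def, Algebra.smul_def, map_mul, c1, c2]
    rw [h3]
    exact Submodule.smul_mem _ _ (Submodule.subset_span ⟨i, rfl⟩)
  have hmul : ∀ (k : K) (x : K'), x ∈ Submodule.span F' (Set.range fun i => algebraMap K K' (bas i)) →
      algebraMap K K' k * x ∈ Submodule.span F' (Set.range fun i => algebraMap K K' (bas i)) := by
    intro k x hx
    induction hx using Submodule.span_induction with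
    | mem x hx =>
      obtain ⟨i, rfl⟩ := hx
      have := hK (k * bas i)
      rwa [map_mul] at this
    | zero => rw [mul_zero]; exact Submodule.zero_mem _
    | add x y _ _ hx hy => rw [mul_add]; exact Submodule.add_mem _ hx hy
    | smul a x _ hx =>
      have e : algebraMap K K' k * (a • x) = a • (algebraMap K K' k * x) := by
        rw [Algebra.smul_def, Algebra.smul_def]; ring
      rw [e]
      exact Submodule.smul_mem _ _ hx
  have hadj : Subalgebra.toSubmodule (Algebra.adjoin K (Set.range (algebraMap F' K'))) = ⊤ := by
    have h1 := IntermediateField.adjoin_toSubalgebra (F := K) (E := K')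
      (Set.range (algebraMap F' K'))
    rw [← h1, h]
    simp
  rw [Algebra.adjoin_eq_span] at hadj
  intro z _
  have hz : z ∈ Submodule.span K (Submonoid.closure (Set.range (algebraMap F' K')) : Set K') := by
    rw [hadj]; trivial
  induction hz using Submodule.span_induction with
  | mem x hx =>
    have hx' : x ∈ MonoidHom.mrange (algebraMap F' K' : F' →* K') := by
      refine (Submonoid.closure_le.2 ?_) hx
      rintro _ ⟨y, rfl⟩
      exact ⟨y, rfl⟩
    obtain ⟨y, rfl⟩ := hx'
    have e : ((algebraMap F' K' : F' →* K') y) = y • algebraMap K K' 1 := by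
      rw [map_one, Algebra.smul_def, mul_one]
      rfl
    rw [e]
    exact Submodule.smul_mem _ _ (hK 1)
  | zero => exact Submodule.zero_mem _
  | add x y _ _ hx hy => exact Submodule.add_mem _ (hx trivial) (hy trivial)
  | smul a x _ hx =>
    rw [Algebra.smul_def]
    exact hmul a x (hx trivial)

/-- Galois theory of a square of fields -/
theorem t_GAL : Pool.Agent.N848.OL.S_GAL := by
  intro p hp F F' K K' _ _ _ _ _ _ _ _ _ _ _ _ _ _ _ hGF hF hGK hK hadj
  have hp0 : 0 < p := hp.out.pos
  have c1 : ∀ x : F, algebraMap F' K' (algebraMap F F' x) = algebraMap F K' x := fun x =>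
    (IsScalarTower.algebraMap_apply F F' K' x).symm
  have c2 : ∀ x : F, algebraMap K K' (algebraMap F K x) = algebraMap F K' x := fun x =>
    (IsScalarTower.algebraMap_apply F K K' x).symm
  have hdim : finrank F' K' = finrank F K := by
    have e1 := finrank_mul_finrank F F' K'
    have e2 := finrank_mul_finrank F K K'
    rw [hF] at e1
    rw [hK] at e2
    have : p * finrank F' K' = p * finrank F K := by rw [e1, ← e2, mul_comm]
    exact Nat.eq_of_mul_eq_mul_left hp0 this
  have hfK : FiniteDimensional K K' := FiniteDimensional.of_finrank_pos (by omega)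
  refine ⟨hdim, ?_, ?_, ?_⟩
  · intro b
    classical
    let bas := finBasis F K
    let v : Fin (finrank F K) → K' := fun i => algebraMap K K' (bas i)
    have hsp : ⊤ ≤ Submodule.span F' (Set.range v) := span_comp hadj bas
    let bas' : Basis (Fin (finrank F K)) F' K' :=
      basisOfTopLeSpanOfCardEqFinrank v hsp (by rw [Fintype.card_fin, hdim])
    have hb' : ∀ i, bas' i = algebraMap K K' (bas i) := fun i => by
      have := congrFun (coe_basisOfTopLeSpanOfCardEqFinrank v hsp
        (by rw [Fintype.card_fin, hdim])) i
      exact this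
    rw [Algebra.norm_eq_matrix_det bas', Algebra.norm_eq_matrix_det bas, RingHom.map_det]
    congr 1
    ext i j
    rw [Algebra.leftMulMatrix_eq_repr_mul, RingHom.mapMatrix_apply, Matrix.map_apply,
      Algebra.leftMulMatrix_eq_repr_mul, hb', ← map_mul]
    have h4 : algebraMap K K' (b * bas j) =
        ∑ l, (algebraMap F F' (bas.repr (b * bas j) l)) • bas' l := by
      conv_lhs => rw [← bas.sum_repr (b * bas j), map_sum]
      refine Finset.sum_congr rfl fun l _ => ?_
      rw [Algebra.smul_def, Algebra.smul_def, map_mul, c1, c2, hb']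
    rw [h4, Basis.repr_sum_self]
  · have hcard : Nat.card (K' ≃ₐ[K] K') = p := by
      rw [IsGalois.card_aut_eq_finrank, hK]
    have hcyc : IsCyclic (K' ≃ₐ[K] K') := isCyclic_of_prime_card hcard
    obtain ⟨g, hg⟩ := hcyc.exists_generator
    refine ⟨g, fun x => ?_, fun τ => ?_⟩
    · have h1 : g ^ p = 1 := by
        rw [← hcard]
        exact pow_card_eq_one'
      rw [h1]
      rfl
    · obtain ⟨i, hi⟩ := mem_powers_iff_mem_zpowers.2 (hg τ)
      exact ⟨i, hi.symm⟩
  · intro σ
    let χ : K' ≃ₐ[F] K' := σ.restrictScalars F
    have hτ : ∀ x : F', algebraMap F' K' (χ.restrictNormal F' x) = σ (algebraMap F' K' x) :=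
      fun x => AlgEquiv.restrictNormal_commutes χ F' x
    refine ⟨χ.restrictNormal F', fun x => (hτ x).symm, fun f => ?_⟩
    have h1 := Algebra.norm_eq_of_equiv_equiv (χ.restrictNormal F').toRingEquiv σ.toRingEquiv (by
      ext x
      exact hτ x) f
    have h2 : (χ.restrictNormal F').toRingEquiv (Algebra.norm F' f) =
        Algebra.norm F' (σ.toRingEquiv f) := by
      rw [h1, RingEquiv.apply_symm_apply]
    exact h2.symm

end Pool.Agent.N111.OL
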